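import Pool.Agent.Helper93_ABCT.StmtI

/-! Squad ABCT: module DIM -/

open MvPolynomial Topology

namespace PosGeom.H38

theorem exists_indep {K : Type} [Field K] [Algebra ℂ K] (d : ℕ) (h : Algebra.trdeg ℂ K = d) :
    ∃ a : Fin d → K, AlgebraicIndependent ℂ a := by
  obtain ⟨s, x, hs⟩ := exists_isTranscendenceBasis' ℂ K
  have hc := hs.cardinalMk_eq_trdeg
  rw [h] at hc
  have hc' : Cardinal.mk (Fin d) = Cardinal.mk s := by
    rw [hc, Cardinal.mk_fin]
  obtain ⟨e⟩ := Cardinal.eq.mp hc'
  exact ⟨x ∘ e, hs.1.comp e e.injective⟩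

theorem dim (hS : SpecStmt) (hG : SgenStmt) : DimStmt := by
  intro ι _ C D d hCD hC hD
  apply le_antisymm hCD
  intro F hF
  by_contra hFC
  -- a homogeneous component not in `C.I`
  obtain ⟨n, hn⟩ : ∃ n, homogeneousComponent n F ∉ C.I := by
    by_contra hall
    push Not at hall
    apply hFC
    rw [← sum_homogeneousComponent F]
    exact Ideal.sum_mem _ fun i _ => hall i
  have hnD : homogeneousComponent n F ∈ D.I := D.homog F hF n
  have hhom : (homogeneousComponent n F).IsHomogeneous n := homogeneousComponent_isHomogeneous n F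
  set P := homogeneousComponent n F with hP
  obtain ⟨i, hi⟩ := D.rel
  have hDgen := (hG ι D).1
  have hCgen := (hG ι C).1
  have hvan : ∀ F ∈ C.I, aeval D.gen F = 0 := fun F hF => (hDgen F).mpr (hCD hF)
  have hne : ∃ i, D.gen i ≠ 0 := by
    refine ⟨i, fun h0 => hi ((hDgen (X i)).mp ?_)⟩
    rw [aeval_X]; exact h0
  have hgi : D.gen i ≠ 0 := by
    intro h0
    exact hi ((hDgen (X i)).mp (by rw [aeval_X]; exact h0))
  obtain ⟨huniq, hconst, hadd, hmul, hneg, hinv, hex, hval⟩ := hS ι C D.Frac D.gen hvan hne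
  obtain ⟨f, hf1, hf2⟩ := hex n P (X i ^ n) hhom
    (by
      have := (isHomogeneous_X ℂ i).pow n
      rwa [one_mul] at this)
    (by rw [map_pow, aeval_X]; exact pow_ne_zero _ hgi)
  rw [(hDgen P).mpr hnD, zero_div] at hf2
  have hf0 : f ≠ 0 := by
    rintro rfl
    apply hn
    rw [← hCgen P, ← hf1]
    simp
  -- lift a transcendence basis
  obtain ⟨a, ha⟩ := exists_indep d hD
  have hb : ∀ j, ∃ b : C.K, C.SpecTo D.gen b (a j : D.Frac) := by
    intro j
    obtain ⟨m, A, B, hA, hB, hB0, h1, -⟩ := (hG ι D).2.1 (a j)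
    obtain ⟨b, -, hb⟩ := hex m A B hA hB hB0
    refine ⟨b, ?_⟩
    have : (a j : D.Frac) = aeval D.gen A / aeval D.gen B := by
      rw [eq_div_iff hB0]; exact h1
    rw [this]; exact hb
  choose b hb using hb
  have hpoly : ∀ Q : MvPolynomial (Fin d) ℂ,
      C.SpecTo D.gen (aeval b Q) ((aeval a Q : D.K) : D.Frac) := by
    intro Q
    induction Q using MvPolynomial.induction_on with
    | C c =>
      have := hconst c
      rw [← MvPolynomial.algebraMap_eq, AlgHom.commutes, AlgHom.commutes]
      exact this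
    | add p q hp hq =>
      rw [map_add, map_add]
      exact hadd _ _ _ _ hp hq
    | mul_X p j hp =>
      rw [map_mul, map_mul, aeval_X, aeval_X]
      exact hmul _ _ _ _ hp (hb j)
  have hinjc : ∀ x : D.K, (x : D.Frac) = 0 → x = 0 := by
    intro x hx
    exact Subtype.ext hx
  have hspec0 : C.SpecTo D.gen 0 0 := by
    have := hconst 0
    rwa [map_zero, map_zero] at this
  have hbind : AlgebraicIndependent ℂ b := by
    rw [algebraicIndependent_iff]
    intro Q hQ
    have h1 := hpoly Q
    rw [hQ] at h1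
    have h2 := huniq _ _ _ h1 hspec0
    exact algebraicIndependent_iff.mp ha Q (hinjc _ h2)
  have htr : Transcendental (Algebra.adjoin ℂ (Set.range b)) f := by
    intro halg
    obtain ⟨q, hq0, hq⟩ := halg
    -- divide by powers of the variable
    have key : ∀ (N : ℕ) (q : Polynomial (Algebra.adjoin ℂ (Set.range b))), q.natDegree ≤ N →
        q ≠ 0 → Polynomial.aeval f q = 0 → ∃ q' : Polynomial (Algebra.adjoin ℂ (Set.range b)),
          q'.coeff 0 ≠ 0 ∧ Polynomial.aeval f q' = 0 := by
      intro N
      induction N with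
      | zero =>
        intro q hN hq0 hq
        refine ⟨q, ?_, hq⟩
        intro h0
        apply hq0
        rw [Polynomial.eq_C_of_natDegree_le_zero hN, h0, map_zero]
      | succ N ih =>
        intro q hN hq0 hq
        by_cases h0 : q.coeff 0 = 0
        · have h1 : q = q.divX * Polynomial.X := by
            conv_lhs => rw [← Polynomial.divX_mul_X_add q, h0, map_zero, add_zero]
          apply ih q.divX
          · rw [Polynomial.natDegree_divX_eq_natDegree_tsub_one]; omega
          · intro h2
            apply hq0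
            rw [h1, h2, zero_mul]
          · rw [h1, map_mul, Polynomial.aeval_X] at hq
            exact (mul_eq_zero.mp hq).resolve_right hf0
        · exact ⟨q, h0, hq⟩
    obtain ⟨q', hq'0, hq'⟩ := key q.natDegree q le_rfl hq0 hq
    have hcoef : ∀ c : Algebra.adjoin ℂ (Set.range b), ∃ Q : MvPolynomial (Fin d) ℂ,
        aeval b Q = (c : C.K) := by
      intro c
      have h1 : (c : C.K) ∈ (aeval b : MvPolynomial (Fin d) ℂ →ₐ[ℂ] C.K).range := by
        rw [← Algebra.adjoin_range_eq_range_aeval]
        exact c.2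
      obtain ⟨Q, hQ⟩ := h1
      exact ⟨Q, hQ⟩
    have hexv : ∀ r : Polynomial (Algebra.adjoin ℂ (Set.range b)),
        ∃ v, C.SpecTo D.gen (Polynomial.aeval f r) v := by
      intro r
      induction r using Polynomial.induction_on with
      | C c =>
        obtain ⟨Q, hQ⟩ := hcoef c
        refine ⟨((aeval a Q : D.K) : D.Frac), ?_⟩
        rw [Polynomial.aeval_C]
        change C.SpecTo D.gen (c : C.K) _
        rw [← hQ]
        exact hpoly Q
      | add p q hp hq =>
        obtain ⟨v, hv⟩ := hp
        obtain ⟨w, hw⟩ := hq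
        refine ⟨v + w, ?_⟩
        rw [map_add]
        exact hadd _ _ _ _ hv hw
      | monomial m c h =>
        obtain ⟨v, hv⟩ := h
        refine ⟨v * 0, ?_⟩
        rw [pow_succ, ← mul_assoc, map_mul, Polynomial.aeval_X]
        exact hmul _ _ _ _ hv hf2
    obtain ⟨v, hv⟩ := hexv q'.divX
    obtain ⟨Q, hQ⟩ := hcoef (q'.coeff 0)
    have h1 : Polynomial.aeval f q' = Polynomial.aeval f q'.divX * f + aeval b Q := by
      conv_lhs => rw [← Polynomial.divX_mul_X_add q']
      rw [map_add, map_mul, Polynomial.aeval_X, Polynomial.aeval_C, hQ]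
      rfl
    have h2 : C.SpecTo D.gen (Polynomial.aeval f q') (v * 0 + ((aeval a Q : D.K) : D.Frac)) := by
      rw [h1]
      exact hadd _ _ _ _ (hmul _ _ _ _ hv hf2) (hpoly Q)
    rw [hq', mul_zero, zero_add] at h2
    have h3 := hinjc _ (huniq _ _ _ h2 hspec0)
    have h4 := algebraicIndependent_iff.mp ha Q h3
    apply hq'0
    rw [h4, map_zero] at hQ
    exact Subtype.ext hQ.symm
  have hopt := hbind.option_iff_transcendental f |>.mpr htr
  have hle := hopt.cardinalMk_le_trdeg
  rw [hC, Cardinal.mk_option, Cardinal.mk_fin] at hle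
  have : ((d + 1 : ℕ) : Cardinal) ≤ (d : Cardinal) := by
    rw [Nat.cast_add, Nat.cast_one]; exact hle
  rw [Nat.cast_le] at this
  omega

end PosGeom.H38
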