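import Pool.Agent.Helper93_ABCT.StmtI

/-! Squad ABCT: module FTWI -/

open MvPolynomial Topology

namespace PosGeom.H38

variable {K : Type} [Field K] [Algebra ℂ K] {d : ℕ}

lemma dW_apply (g : Fin d → K) (D : Fin d → Derivation ℂ K K) :
    dW g D = (Matrix.of fun i j => D i (g j)).det := rfl

lemma der_coeffs (y : Fin d → K) (a : ℕ) (h : K)
    (hh : h ∈ IntermediateField.adjoin ℂ {f | ∃ i : Fin d, (i : ℕ) < a ∧ f = y i}) :
    ∃ c : Fin d → K, (∀ i : Fin d, a ≤ (i : ℕ) → c i = 0) ∧
      ∀ D : Derivation ℂ K K, D h = ∑ i, c i * D (y i) := by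
  induction hh using IntermediateField.adjoin_induction with
  | mem x hx =>
    obtain ⟨i, hi, rfl⟩ := hx
    refine ⟨Pi.single i 1, ?_, ?_⟩
    · intro j hj
      rw [Pi.single_apply, if_neg]
      rintro rfl
      omega
    · intro D
      rw [Finset.sum_eq_single i]
      · simp
      · intro j _ hji
        rw [Pi.single_apply, if_neg hji, zero_mul]
      · intro hi
        exact absurd (Finset.mem_univ _) hi
  | algebraMap x =>
    refine ⟨0, fun _ _ => rfl, fun D => ?_⟩
    simp
  | add x y' hx hy h1 h2 =>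
    obtain ⟨c1, h1a, h1b⟩ := h1
    obtain ⟨c2, h2a, h2b⟩ := h2
    refine ⟨c1 + c2, fun i hi => by rw [Pi.add_apply, h1a i hi, h2a i hi, add_zero], fun D => ?_⟩
    rw [map_add, h1b, h2b, ← Finset.sum_add_distrib]
    refine Finset.sum_congr rfl fun i _ => ?_
    rw [Pi.add_apply, add_mul]
  | inv x hx h1 =>
    obtain ⟨c1, h1a, h1b⟩ := h1
    refine ⟨fun i => -(x⁻¹ ^ 2) * c1 i, fun i hi => by
      change -(x⁻¹ ^ 2) * c1 i = 0
      rw [h1a i hi, mul_zero], fun D => ?_⟩
    rw [Derivation.leibniz_inv, h1b, smul_eq_mul, Finset.mul_sum]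
    refine Finset.sum_congr rfl fun i _ => ?_
    ring
  | mul x y' hx hy h1 h2 =>
    obtain ⟨c1, h1a, h1b⟩ := h1
    obtain ⟨c2, h2a, h2b⟩ := h2
    refine ⟨fun i => x * c2 i + y' * c1 i, fun i hi => by
      change x * c2 i + y' * c1 i = 0
      rw [h1a i hi, h2a i hi, mul_zero, mul_zero, add_zero], fun D => ?_⟩
    rw [Derivation.leibniz, h1b, h2b, smul_eq_mul, smul_eq_mul, Finset.mul_sum, Finset.mul_sum,
      ← Finset.sum_add_distrib]
    refine Finset.sum_congr rfl fun i _ => ?_
    ring

theorem ftwi : FtwiStmt := by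
  intro K _ _ d y h a hy hh h1 hadj
  have hc : ∀ j : Fin d, ∃ c : Fin d → K, (∀ i : Fin d, ¬ ((i : ℕ) < a ∧ a ≤ (j : ℕ)) → c i = 0) ∧
      ∀ D : Derivation ℂ K K, D (h j) = ∑ i, c i * D (y i) := by
    intro j
    by_cases hj : (j : ℕ) < a
    · refine ⟨0, fun _ _ => rfl, fun D => ?_⟩
      rw [h1 j hj]
      simp
    · obtain ⟨c, hca, hcb⟩ := der_coeffs y a (h j) (hadj j)
      refine ⟨c, fun i hi => hca i ?_, hcb⟩
      by_contra hlt
      exact hi ⟨by omega, by omega⟩
  choose c hca hcb using hc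
  let T : Matrix (Fin d) (Fin d) K :=
    Matrix.of fun i j => (if i = j then h j else 0) + y j * c j i
  have hT : T.det = ∏ j, h j := by
    have htri : T.BlockTriangular id := by
      intro i j hij
      have hij' : (j : ℕ) < (i : ℕ) := hij
      change (if i = j then h j else 0) + y j * c j i = 0
      have hne : i ≠ j := by
        rintro rfl
        omega
      rw [if_neg hne, hca j i (by omega), mul_zero, add_zero]
    rw [Matrix.det_of_upperTriangular htri]
    refine Finset.prod_congr rfl fun j _ => ?_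
    change (if j = j then h j else 0) + y j * c j j = h j
    rw [if_pos rfl, hca j j (by omega), mul_zero, add_zero]
  unfold dL
  apply AlternatingMap.ext
  intro D
  rw [AlternatingMap.smul_apply, AlternatingMap.smul_apply, dW_apply, dW_apply]
  have hM : (Matrix.of fun i j => D i (y j * h j)) = (Matrix.of fun i j => D i (y j)) * T := by
    ext i j
    rw [Matrix.mul_apply]
    change D i (y j * h j) = ∑ k, D i (y k) * ((if k = j then h j else 0) + y j * c j k)
    rw [Derivation.leibniz, hcb j (D i), smul_eq_mul, smul_eq_mul]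
    simp only [mul_add, Finset.sum_add_distrib, mul_ite, mul_zero, Finset.sum_ite_eq',
      Finset.mem_univ, if_true, Finset.mul_sum]
    rw [add_comm]
    congr 1
    · ring
    · refine Finset.sum_congr rfl fun k _ => ?_
      ring
  rw [hM, Matrix.det_mul, hT, Finset.prod_mul_distrib, smul_eq_mul, smul_eq_mul]
  have hp : ∏ j, h j ≠ 0 := Finset.prod_ne_zero_iff.mpr fun j _ => hh j
  have hp' : ∏ j, y j ≠ 0 := Finset.prod_ne_zero_iff.mpr fun j _ => hy j
  field_simp

end PosGeom.H38
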