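import Pool.Agent.Helper32_ABCT.Stmts2

/-!
# NFAC: facets of nets are valid, with the same labels and rank and fewer bases (MP_a17fcb_ag)
-/

open MvPolynomial

namespace ABCT.H38

open FlatCell

theorem valid_sub {S : Net} (h : S.Valid) : ∀ I ∈ S.M, I ⊆ S.E := (Net.wf' S h).sub

/-- the first summand is determined -/
theorem dsum_left {S T : Net} (hS : ∀ I ∈ S.M, I ⊆ S.E) (hT : ∀ I ∈ T.M, I ⊆ T.E)
    (hd : Disjoint S.E T.E) {J K J' K' : Finset ℕ} (hJ : J ⊆ S.E) (hK : K ∈ T.M)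
    (hJ' : J' ∈ S.M) (hK' : K' ∈ T.M) (h : J ∪ K = J' ∪ K') : J = J' := by
  rw [Finset.disjoint_left] at hd
  ext x
  constructor
  · intro hx
    have : x ∈ J' ∪ K' := by rw [← h]; exact Finset.mem_union_left _ hx
    rcases Finset.mem_union.mp this with h1 | h1
    · exact h1
    · exact absurd (hT K' hK' h1) (hd (hJ hx))
  · intro hx
    have : x ∈ J ∪ K := by rw [h]; exact Finset.mem_union_left _ hx
    rcases Finset.mem_union.mp this with h1 | h1
    · exact h1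
    · exact absurd (hT K hK h1) (hd (hS _ hJ' hx))

theorem dsum_mono {S T S' T' : Net} (h : S'.M ⊆ S.M) (h' : T'.M ⊆ T.M) :
    (Net.dsum S' T').M ⊆ (Net.dsum S T).M := by
  intro I hI
  rw [dsum_M] at hI ⊢
  obtain ⟨J, hJ, K, hK, e⟩ := hI
  exact ⟨J, h hJ, K, h' hK, e⟩

theorem tsum_mono {S T S' T' : Net} {q : ℕ} (h : S'.M ⊆ S.M) (h' : T'.M ⊆ T.M) :
    (Net.tsum S' T' q).M ⊆ (Net.tsum S T q).M := by
  intro I hI
  rw [tsum_M] at hI ⊢
  obtain ⟨J, hJ, K, hK, hq, e⟩ := hI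
  exact ⟨J, h hJ, K, h' hK, hq, e⟩

/-- the two bases are determined by their union without `q` -/
theorem tsum_pair {S T S' T' : Net} {q : ℕ} (hS : ∀ I ∈ S.M, I ⊆ S.E) (hT : ∀ I ∈ T.M, I ⊆ T.E)
    (hS' : S'.M ⊆ S.M) (hT' : T'.M ⊆ T.M) (hcS : ∀ I ∈ S.M, I.card = S.rk)
    (hd : Disjoint (S.E.erase q) (T.E.erase q)) {J K J' K' : Finset ℕ}
    (hJ : J ∈ S.M) (hK : K ∈ T.M) (hJ' : J' ∈ S'.M) (hK' : K' ∈ T'.M)
    (hq : Xq q J K) (hq' : Xq q J' K') (h : (J ∪ K).erase q = (J' ∪ K').erase q) :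
    J = J' ∧ K = K' := by
  obtain ⟨e1, e2⟩ := tsum_split (q := q) (hS J hJ) (hT K hK) hd
  obtain ⟨e3, e4⟩ := tsum_split (q := q) (hS J' (hS' hJ')) (hT K' (hT' hK')) hd
  rw [h] at e1 e2
  have a1 : J.erase q = J'.erase q := e1.symm.trans e3
  have a2 : K.erase q = K'.erase q := e2.symm.trans e4
  have c1 := hcS J hJ
  have c2 := hcS J' (hS' hJ')
  have key : q ∈ J ↔ q ∈ J' := by
    constructor
    · intro hqJ
      by_contra hqJ'
      rw [Finset.erase_eq_of_notMem hqJ'] at a1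
      have := Finset.card_erase_of_mem hqJ
      rw [a1] at this
      have hpos : 0 < J.card := Finset.card_pos.mpr ⟨q, hqJ⟩
      omega
    · intro hqJ'
      by_contra hqJ
      rw [Finset.erase_eq_of_notMem hqJ] at a1
      have := Finset.card_erase_of_mem hqJ'
      rw [← a1] at this
      have hpos : 0 < J'.card := Finset.card_pos.mpr ⟨q, hqJ'⟩
      omega
  have k1 : J = J' := by
    by_cases hqJ : q ∈ J
    · rw [← Finset.insert_erase hqJ, a1, Finset.insert_erase (key.mp hqJ)]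
    · rw [← Finset.erase_eq_of_notMem hqJ, a1,
        Finset.erase_eq_of_notMem (fun h => hqJ (key.mpr h))]
  have key2 : q ∈ K ↔ q ∈ K' := by
    rcases hq with ⟨u1, u2⟩ | ⟨u1, u2⟩ <;> rcases hq' with ⟨v1, v2⟩ | ⟨v1, v2⟩
    · exact ⟨fun h => absurd h u2, fun h => absurd h v2⟩
    · exact absurd (key.mp u1) v1
    · exact absurd (key.mpr v1) u1
    · exact ⟨fun _ => v2, fun _ => u2⟩
  have k2 : K = K' := by
    by_cases hqK : q ∈ K
    · rw [← Finset.insert_erase hqK, a2, Finset.insert_erase (key2.mp hqK)]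
    · rw [← Finset.erase_eq_of_notMem hqK, a2,
        Finset.erase_eq_of_notMem (fun h => hqK (key2.mpr h))]
  exact ⟨k1, k2⟩

/-- a basis of `S` has a partner -/
theorem partner {S T : Net} {q : ℕ} (hT : T.M.Nonempty)
    (h : (S.Alive q ∧ T.Alive q) ∨ (S.Loop q ∧ T.Coloop q) ∨ (S.Coloop q ∧ T.Loop q))
    {J : Finset ℕ} (hJ : J ∈ S.M) : ∃ K ∈ T.M, Xq q J K := by
  rcases h with ⟨-, ⟨⟨K, hK, hK'⟩, ⟨K', h1, h2⟩⟩⟩ | ⟨h1, h2⟩ | ⟨h1, h2⟩
  · by_cases hq : q ∈ J
    · exact ⟨K', h1, Or.inl ⟨hq, h2⟩⟩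
    · exact ⟨K, hK, Or.inr ⟨hq, hK'⟩⟩
  · obtain ⟨K, hK⟩ := hT
    exact ⟨K, hK, Or.inr ⟨h1 J hJ, h2 K hK⟩⟩
  · obtain ⟨K, hK⟩ := hT
    exact ⟨K, hK, Or.inl ⟨h1 J hJ, h2 K hK⟩⟩

theorem partner' {S T : Net} {q : ℕ} (hS : S.M.Nonempty)
    (h : (S.Alive q ∧ T.Alive q) ∨ (S.Loop q ∧ T.Coloop q) ∨ (S.Coloop q ∧ T.Loop q))
    {K : Finset ℕ} (hK : K ∈ T.M) : ∃ J ∈ S.M, Xq q J K := by
  have h' : (T.Alive q ∧ S.Alive q) ∨ (T.Loop q ∧ S.Coloop q) ∨ (T.Coloop q ∧ S.Loop q) := by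
    rcases h with h | h | h
    · exact Or.inl ⟨h.2, h.1⟩
    · exact Or.inr (Or.inr ⟨h.2, h.1⟩)
    · exact Or.inr (Or.inl ⟨h.2, h.1⟩)
  obtain ⟨J, hJ, hq⟩ := partner hS h' hK
  refine ⟨J, hJ, ?_⟩
  rcases hq with h | h
  · exact Or.inr ⟨h.2, h.1⟩
  · exact Or.inl ⟨h.2, h.1⟩

/-- the content of FACET for a pair -/
def Good (S S' : Net) : Prop := S'.Valid ∧ S'.E = S.E ∧ S'.rk = S.rk ∧ S'.M ⊂ S.M

theorem good_black (l : Finset ℕ) (x : ℕ) (hx : x ∈ l) (hl : 2 ≤ l.card) :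
    Good (Net.black l) (Net.dsum (Net.white {x}) (Net.black (l.erase x))) := by
  have hc := Finset.card_erase_of_mem hx
  refine ⟨⟨?_, ?_, ?_⟩, ?_, ?_, ?_⟩
  · show ({x} : Finset ℕ).Nonempty
    simp
  · show (l.erase x).Nonempty
    rw [← Finset.card_pos]; omega
  · show Disjoint ({x} : Finset ℕ) (l.erase x)
    simp
  · show ({x} : Finset ℕ) ∪ l.erase x = l
    rw [← Finset.insert_eq, Finset.insert_erase hx]
  · rfl
  · have hM : ∀ I, I ∈ (Net.dsum (Net.white {x}) (Net.black (l.erase x))).M ↔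
        ∃ y ∈ l.erase x, I = {y} := by
      intro I
      rw [dsum_M]
      simp only [Net.M, Finset.mem_image]
      constructor
      · rintro ⟨J, ⟨a, ha, rfl⟩, K, ⟨b, hb, rfl⟩, rfl⟩
        refine ⟨b, hb, ?_⟩
        rw [Finset.mem_singleton] at ha
        subst ha
        simp
      · rintro ⟨y, hy, rfl⟩
        exact ⟨∅, ⟨x, by simp, by simp⟩, {y}, ⟨y, hy, rfl⟩, by simp⟩
    rw [Finset.ssubset_iff_of_subset]
    · refine ⟨{x}, ?_, ?_⟩
      · show {x} ∈ (Net.black l).M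
        rw [Net.M, Finset.mem_image]
        exact ⟨x, hx, rfl⟩
      · rw [hM]
        rintro ⟨y, hy, e⟩
        rw [Finset.singleton_inj] at e
        subst e
        simp at hy
    · intro I hI
      rw [hM] at hI
      obtain ⟨y, hy, rfl⟩ := hI
      show {y} ∈ (Net.black l).M
      rw [Net.M, Finset.mem_image]
      exact ⟨y, Finset.mem_of_mem_erase hy, rfl⟩

theorem good_white (l : Finset ℕ) (x : ℕ) (hx : x ∈ l) (hl : 2 ≤ l.card) :
    Good (Net.white l) (Net.dsum (Net.black {x}) (Net.white (l.erase x))) := by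
  have hc := Finset.card_erase_of_mem hx
  refine ⟨⟨?_, ?_, ?_⟩, ?_, ?_, ?_⟩
  · show ({x} : Finset ℕ).Nonempty
    simp
  · show (l.erase x).Nonempty
    rw [← Finset.card_pos]; omega
  · show Disjoint ({x} : Finset ℕ) (l.erase x)
    simp
  · show ({x} : Finset ℕ) ∪ l.erase x = l
    rw [← Finset.insert_eq, Finset.insert_erase hx]
  · show 1 + ((l.erase x).card - 1) = l.card - 1
    omega
  · have hM : ∀ I, I ∈ (Net.dsum (Net.black {x}) (Net.white (l.erase x))).M ↔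
        ∃ y ∈ l.erase x, I = l.erase y := by
      intro I
      rw [dsum_M]
      simp only [Net.M, Finset.mem_image]
      have key : ∀ y ∈ l.erase x, ({x} : Finset ℕ) ∪ (l.erase x).erase y = l.erase y := by
        intro y hy
        ext z
        simp only [Finset.mem_union, Finset.mem_singleton, Finset.mem_erase] at hy ⊢
        constructor
        · rintro (rfl | h)
          · exact ⟨fun h => hy.1 h.symm, hx⟩
          · exact ⟨h.1, h.2.2⟩
        · rintro ⟨h1, h2⟩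
          by_cases h : z = x
          · exact Or.inl h
          · exact Or.inr ⟨h1, h, h2⟩
      constructor
      · rintro ⟨J, ⟨a, ha, rfl⟩, K, ⟨b, hb, rfl⟩, rfl⟩
        refine ⟨b, hb, ?_⟩
        rw [Finset.mem_singleton] at ha
        subst ha
        exact key b hb
      · rintro ⟨y, hy, rfl⟩
        exact ⟨{x}, ⟨x, by simp, rfl⟩, _, ⟨y, hy, rfl⟩, (key y hy).symm⟩
    rw [Finset.ssubset_iff_of_subset]
    · refine ⟨l.erase x, ?_, ?_⟩
      · show l.erase x ∈ (Net.white l).M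
        rw [Net.M, Finset.mem_image]
        exact ⟨x, hx, rfl⟩
      · rw [hM]
        rintro ⟨y, hy, e⟩
        have : y ∈ l.erase x := hy
        rw [e] at this
        simp at this
    · intro I hI
      rw [hM] at hI
      obtain ⟨y, hy, rfl⟩ := hI
      show l.erase y ∈ (Net.white l).M
      rw [Net.M, Finset.mem_image]
      exact ⟨y, Finset.mem_of_mem_erase hy, rfl⟩

theorem alive_of_unif {S : Net} {E : Finset ℕ} {r q : ℕ} (h : S.M = E.powersetCard r) (hq : q ∈ E)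
    (h1 : 1 ≤ r) (h2 : r < E.card) : S.Alive q := by
  constructor
  · have : r - 1 ≤ (E.erase q).card := by rw [Finset.card_erase_of_mem hq]; omega
    obtain ⟨K, hK, hc⟩ := Finset.exists_subset_card_eq this
    refine ⟨insert q K, ?_, Finset.mem_insert_self _ _⟩
    have hqK : q ∉ K := fun h => by simpa using hK h
    rw [h, Finset.mem_powersetCard, Finset.card_insert_of_notMem hqK]
    exact ⟨Finset.insert_subset hq (hK.trans (Finset.erase_subset _ _)), by omega⟩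
  · have : r ≤ (E.erase q).card := by rw [Finset.card_erase_of_mem hq]; omega
    obtain ⟨K, hK, hc⟩ := Finset.exists_subset_card_eq this
    refine ⟨K, ?_, fun h => by simpa using hK h⟩
    rw [h, Finset.mem_powersetCard]
    exact ⟨hK.trans (Finset.erase_subset _ _), hc⟩

theorem good_gen (hvtx : VtxGStmt) (L A R : List ℕ) (ρ q d r : ℕ) (SA SB : Net)
    (hq : q ∉ L ++ A ++ R ++ [ρ])
    (hA : Net.IsVtx (A ++ [q]) (d + 1) SA) (hB : Net.IsVtx (L ++ [q] ++ R ++ [ρ]) r SB)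
    (hV : (Net.gen (L ++ A ++ R ++ [ρ]) (d + r)).Valid) :
    Good (Net.gen (L ++ A ++ R ++ [ρ]) (d + r)) (Net.tsum SA SB q) := by
  obtain ⟨hnd, hr2, hrl⟩ := hV
  have hq' : q ∉ L ∧ q ∉ A ∧ q ∉ R ∧ q ≠ ρ := by
    simpa [List.mem_append, not_or, and_assoc] using hq
  have hndA : (A ++ [q]).Nodup := by
    simp only [List.nodup_append, List.nodup_cons, List.mem_append, List.mem_singleton] at hnd ⊢
    grind
  have hndB : (L ++ [q] ++ R ++ [ρ]).Nodup := by
    simp only [List.nodup_append, List.nodup_cons, List.mem_append, List.mem_singleton] at hnd ⊢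
    grind
  obtain ⟨⟨gA, -, hMA, hEA, hrA, -⟩, hVA, ha1, ha2, ha3, ha4⟩ := hvtx _ _ _ hA hndA
  obtain ⟨⟨gB, -, hMB, hEB, hrB, -⟩, hVB, hb1, hb2, hb3, hb4⟩ := hvtx _ _ _ hB hndB
  have cA : (A ++ [q]).toFinset.card = A.length + 1 := by
    rw [List.toFinset_card_of_nodup hndA]; simp
  have cB : (L ++ [q] ++ R ++ [ρ]).toFinset.card = L.length + R.length + 2 := by
    rw [List.toFinset_card_of_nodup hndB]; simp; omega
  simp only [List.length_append, List.length_singleton] at ha2 ha3 ha4 hb2 hb3 hb4 hrl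
  have eA : SA.E.erase q = A.toFinset := by
    rw [hEA]; ext z
    simp only [Finset.mem_erase, List.mem_toFinset, List.mem_append, List.mem_singleton]
    grind
  have eB : SB.E.erase q = (L ++ R ++ [ρ]).toFinset := by
    rw [hEB]; ext z
    simp only [Finset.mem_erase, List.mem_toFinset, List.mem_append, List.mem_singleton]
    grind
  have hdis : Disjoint A.toFinset (L ++ R ++ [ρ]).toFinset := by
    rw [Finset.disjoint_left]
    intro z hz hz'
    simp only [List.mem_toFinset, List.mem_append, List.mem_singleton, List.nodup_append,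
      List.nodup_cons] at hz hz' hnd
    grind
  have cA' : A.toFinset.card = A.length := by
    rw [← eA, hEA, Finset.card_erase_of_mem (by simp), cA]; omega
  have cB' : (L ++ R ++ [ρ]).toFinset.card = L.length + R.length + 1 := by
    rw [← eB, hEB, Finset.card_erase_of_mem (by simp), cB]; omega
  have alA : SA.Alive q := alive_of_unif hMA (by simp) (by omega) (by rw [cA]; omega)
  have alB : SB.Alive q := alive_of_unif hMB (by simp) (by omega) (by rw [cB]; omega)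
  have hE : (Net.tsum SA SB q).E = (L ++ A ++ R ++ [ρ]).toFinset := by
    show SA.E.erase q ∪ SB.E.erase q = _
    rw [eA, eB]; ext z
    simp only [Finset.mem_union, List.mem_toFinset, List.mem_append, List.mem_singleton]
    tauto
  have hM : ∀ I, I ∈ (Net.tsum SA SB q).M ↔ I ⊆ A.toFinset ∪ (L ++ R ++ [ρ]).toFinset ∧
      (((I ∩ A.toFinset).card = d + 1 ∧ (I ∩ (L ++ R ++ [ρ]).toFinset).card + 1 = r) ∨
       ((I ∩ A.toFinset).card = d ∧ (I ∩ (L ++ R ++ [ρ]).toFinset).card = r)) := by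
    intro I
    rw [tsum_mem_iff SA SB q (valid_sub hVA) (valid_sub hVB) (by rw [eA, eB]; exact hdis) I,
      eA, eB, hMA, hMB]
    simp only [Finset.mem_powersetCard]
    have n1 : q ∉ I ∩ A.toFinset := by
      intro h; exact hq'.2.1 (by simpa using (Finset.mem_inter.mp h).2)
    have n2 : q ∉ I ∩ (L ++ R ++ [ρ]).toFinset := by
      intro h
      have := (Finset.mem_inter.mp h).2
      simp only [List.mem_toFinset, List.mem_append, List.mem_singleton] at this
      rcases this with (h | h) | h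
      · exact hq'.1 h
      · exact hq'.2.2.1 h
      · exact hq'.2.2.2 h
    rw [Finset.card_insert_of_notMem n1, Finset.card_insert_of_notMem n2]
    have s1 : I ∩ A.toFinset ⊆ (A ++ [q]).toFinset := by
      intro z hz
      have := (Finset.mem_inter.mp hz).2
      simp only [List.mem_toFinset, List.mem_append, List.mem_singleton] at this ⊢
      exact Or.inl this
    have s2 : I ∩ (L ++ R ++ [ρ]).toFinset ⊆ (L ++ [q] ++ R ++ [ρ]).toFinset := by
      intro z hz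
      have := (Finset.mem_inter.mp hz).2
      simp only [List.mem_toFinset, List.mem_append, List.mem_singleton] at this ⊢
      tauto
    have s3 : insert q (I ∩ A.toFinset) ⊆ (A ++ [q]).toFinset :=
      Finset.insert_subset (by simp) s1
    have s4 : insert q (I ∩ (L ++ R ++ [ρ]).toFinset) ⊆ (L ++ [q] ++ R ++ [ρ]).toFinset :=
      Finset.insert_subset (by simp) s2
    simp only [s1, s2, s3, s4, true_and]
    constructor
    · rintro ⟨h1, h2 | h2⟩
      · exact ⟨h1, Or.inl h2⟩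
      · exact ⟨h1, Or.inr ⟨by omega, h2.2⟩⟩
    · rintro ⟨h1, h2 | h2⟩
      · exact ⟨h1, Or.inl h2⟩
      · exact ⟨h1, Or.inr ⟨by omega, h2.2⟩⟩
  have hU : A.toFinset ∪ (L ++ R ++ [ρ]).toFinset = (L ++ A ++ R ++ [ρ]).toFinset := by
    rw [← eA, ← eB]; exact hE
  refine ⟨⟨hVA, hVB, by rw [hrA]; omega, by rw [hrB]; omega, by rw [hEA]; simp,
    by rw [hEB]; simp, by rw [eA, eB]; exact hdis, Or.inl ⟨alA, alB⟩⟩, hE, ?_, ?_⟩
  · show SA.rk + SB.rk - 1 = d + r
    rw [hrA, hrB]; omega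
  · have split : ∀ I ⊆ A.toFinset ∪ (L ++ R ++ [ρ]).toFinset,
        I.card = (I ∩ A.toFinset).card + (I ∩ (L ++ R ++ [ρ]).toFinset).card := by
      intro I hI
      rw [← Finset.card_union_of_disjoint
        (hdis.mono Finset.inter_subset_right Finset.inter_subset_right),
        ← Finset.inter_union_distrib_left, Finset.inter_eq_left.mpr hI]
    rw [Finset.ssubset_iff_of_subset]
    · -- a basis with a different number of elements in `A`
      have hex : ∃ a b, a ≤ A.length ∧ b ≤ L.length + R.length + 1 ∧ a + b = d + r ∧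
          a ≠ d ∧ a ≠ d + 1 := by
        by_cases h : d + 2 ≤ A.length ∧ 2 ≤ r
        · exact ⟨d + 2, r - 2, by omega, by omega, by omega, by omega, by omega⟩
        · exact ⟨d - 1, r + 1, by omega, by omega, by omega, by omega, by omega⟩
      obtain ⟨a, b, h1, h2, h3, h4, h5⟩ := hex
      rw [← cA'] at h1
      rw [← cB'] at h2
      obtain ⟨J, hJ, cJ⟩ := Finset.exists_subset_card_eq h1
      obtain ⟨K, hK, cK⟩ := Finset.exists_subset_card_eq h2
      have hJK : Disjoint J K := hdis.mono hJ hK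
      refine ⟨J ∪ K, ?_, ?_⟩
      · show J ∪ K ∈ (L ++ A ++ R ++ [ρ]).toFinset.powersetCard (d + r)
        rw [Finset.mem_powersetCard, ← hU, Finset.card_union_of_disjoint hJK]
        exact ⟨Finset.union_subset_union hJ hK, by omega⟩
      · rw [hM]
        have : (J ∪ K) ∩ A.toFinset = J := by
          ext z
          simp only [Finset.mem_inter, Finset.mem_union]
          constructor
          · rintro ⟨u | u, v⟩
            · exact u
            · exact absurd (hK u) (Finset.disjoint_left.mp hdis v)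
          · intro u; exact ⟨Or.inl u, hJ u⟩
        rw [this, cJ]
        rintro ⟨-, u | u⟩
        · exact h5 u.1
        · exact h4 u.1
    · intro I hI
      rw [hM] at hI
      show I ∈ (L ++ A ++ R ++ [ρ]).toFinset.powersetCard (d + r)
      rw [Finset.mem_powersetCard, ← hU]
      refine ⟨hI.1, ?_⟩
      rw [split I hI.1]
      rcases hI.2 with h | h <;> omega

theorem good_dsumL {S T S' : Net} (hV : (Net.dsum S T).Valid) (h : Good S S') :
    Good (Net.dsum S T) (Net.dsum S' T) := by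
  obtain ⟨v1, v2, v3⟩ := hV
  obtain ⟨g1, g2, g3, g4⟩ := h
  refine ⟨⟨g1, v2, by rw [g2]; exact v3⟩, ?_, ?_, ?_⟩
  · show S'.E ∪ T.E = S.E ∪ T.E
    rw [g2]
  · show S'.rk + T.rk = S.rk + T.rk
    rw [g3]
  · rw [Finset.ssubset_iff_of_subset (dsum_mono g4.1 (Finset.Subset.refl _))]
    obtain ⟨J, hJ, hJ'⟩ := (Finset.ssubset_iff_of_subset g4.1).mp g4
    obtain ⟨K, hK⟩ := (Net.wf' T v2).nonempty
    refine ⟨J ∪ K, (dsum_M _).mpr ⟨J, hJ, K, hK, rfl⟩, ?_⟩
    rw [dsum_M]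
    rintro ⟨J1, hJ1, K1, hK1, e⟩
    have := dsum_left (valid_sub v1) (valid_sub v2) v3 (valid_sub v1 J hJ) hK (g4.1 hJ1) hK1 e
    exact hJ' (this ▸ hJ1)

theorem good_dsumR {S T T' : Net} (hV : (Net.dsum S T).Valid) (h : Good T T') :
    Good (Net.dsum S T) (Net.dsum S T') := by
  obtain ⟨v1, v2, v3⟩ := hV
  obtain ⟨g1, g2, g3, g4⟩ := h
  refine ⟨⟨v1, g1, by rw [g2]; exact v3⟩, ?_, ?_, ?_⟩
  · show S.E ∪ T'.E = S.E ∪ T.E
    rw [g2]
  · show S.rk + T'.rk = S.rk + T.rk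
    rw [g3]
  · rw [Finset.ssubset_iff_of_subset (dsum_mono (Finset.Subset.refl _) g4.1)]
    obtain ⟨K, hK, hK'⟩ := (Finset.ssubset_iff_of_subset g4.1).mp g4
    obtain ⟨J, hJ⟩ := (Net.wf' S v1).nonempty
    refine ⟨J ∪ K, (dsum_M _).mpr ⟨J, hJ, K, hK, rfl⟩, ?_⟩
    rw [dsum_M]
    rintro ⟨J1, hJ1, K1, hK1, e⟩
    rw [Finset.union_comm J, Finset.union_comm J1] at e
    have := dsum_left (valid_sub v2) (valid_sub v1) v3.symm (valid_sub v2 K hK) hJ (g4.1 hK1) hJ1 e
    exact hK' (this ▸ hK1)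

theorem good_tsumL {S T S' : Net} {q : ℕ} (hV : (Net.tsum S T q).Valid) (h : Good S S')
    (hq : S.Alive q → S'.Alive q) : Good (Net.tsum S T q) (Net.tsum S' T q) := by
  obtain ⟨v1, v2, r1, r2, v3, v4, v5, v6⟩ := hV
  obtain ⟨g1, g2, g3, g4⟩ := h
  refine ⟨⟨g1, v2, by rw [g3]; exact r1, r2, by rw [g2]; exact v3, v4, by rw [g2]; exact v5, ?_⟩,
    ?_, ?_, ?_⟩
  · rcases v6 with h | h | h
    · exact Or.inl ⟨hq h.1, h.2⟩
    · exact Or.inr (Or.inl ⟨fun I hI => h.1 I (g4.1 hI), h.2⟩)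
    · exact Or.inr (Or.inr ⟨fun I hI => h.1 I (g4.1 hI), h.2⟩)
  · show S'.E.erase q ∪ T.E.erase q = S.E.erase q ∪ T.E.erase q
    rw [g2]
  · show S'.rk + T.rk - 1 = S.rk + T.rk - 1
    rw [g3]
  · rw [Finset.ssubset_iff_of_subset (tsum_mono g4.1 (Finset.Subset.refl _))]
    obtain ⟨J, hJ, hJ'⟩ := (Finset.ssubset_iff_of_subset g4.1).mp g4
    obtain ⟨K, hK, hx⟩ := partner (Net.wf' T v2).nonempty v6 hJ
    refine ⟨(J ∪ K).erase q, tsum_M _ |>.mpr ⟨J, hJ, K, hK, hx, rfl⟩, ?_⟩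
    rw [tsum_M]
    rintro ⟨J1, hJ1, K1, hK1, hx1, e⟩
    have := (tsum_pair (valid_sub v1) (valid_sub v2) g4.1 (Finset.Subset.refl _)
      (Net.wf' S v1).card v5 hJ hK hJ1 hK1 hx hx1 e).1
    exact hJ' (this ▸ hJ1)

theorem good_tsumR {S T T' : Net} {q : ℕ} (hV : (Net.tsum S T q).Valid) (h : Good T T')
    (hq : T.Alive q → T'.Alive q) : Good (Net.tsum S T q) (Net.tsum S T' q) := by
  obtain ⟨v1, v2, r1, r2, v3, v4, v5, v6⟩ := hV
  obtain ⟨g1, g2, g3, g4⟩ := h
  refine ⟨⟨v1, g1, r1, by rw [g3]; exact r2, v3, by rw [g2]; exact v4, by rw [g2]; exact v5, ?_⟩,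
    ?_, ?_, ?_⟩
  · rcases v6 with h | h | h
    · exact Or.inl ⟨h.1, hq h.2⟩
    · exact Or.inr (Or.inl ⟨h.1, fun I hI => h.2 I (g4.1 hI)⟩)
    · exact Or.inr (Or.inr ⟨h.1, fun I hI => h.2 I (g4.1 hI)⟩)
  · show S.E.erase q ∪ T'.E.erase q = S.E.erase q ∪ T.E.erase q
    rw [g2]
  · show S.rk + T'.rk - 1 = S.rk + T.rk - 1
    rw [g3]
  · rw [Finset.ssubset_iff_of_subset (tsum_mono (Finset.Subset.refl _) g4.1)]
    obtain ⟨K, hK, hK'⟩ := (Finset.ssubset_iff_of_subset g4.1).mp g4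
    obtain ⟨J, hJ, hx⟩ := partner' (Net.wf' S v1).nonempty v6 hK
    refine ⟨(J ∪ K).erase q, tsum_M _ |>.mpr ⟨J, hJ, K, hK, hx, rfl⟩, ?_⟩
    rw [tsum_M]
    rintro ⟨J1, hJ1, K1, hK1, hx1, e⟩
    have := (tsum_pair (valid_sub v1) (valid_sub v2) (Finset.Subset.refl _) g4.1
      (Net.wf' S v1).card v5 hJ hK hJ1 hK1 hx hx1 e).2
    exact hK' (this ▸ hK1)

theorem good_tsumB {S T S' T' : Net} {q : ℕ} (hV : (Net.tsum S T q).Valid) (hS : S.Alive q)
    (hT : T.Alive q) (hq : (S'.Loop q ∧ T'.Coloop q) ∨ (S'.Coloop q ∧ T'.Loop q))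
    (h : Good S S') (h' : Good T T') : Good (Net.tsum S T q) (Net.tsum S' T' q) := by
  obtain ⟨v1, v2, r1, r2, v3, v4, v5, v6⟩ := hV
  obtain ⟨g1, g2, g3, g4⟩ := h
  obtain ⟨k1, k2, k3, k4⟩ := h'
  refine ⟨⟨g1, k1, by rw [g3]; exact r1, by rw [k3]; exact r2, by rw [g2]; exact v3,
    by rw [k2]; exact v4, by rw [g2, k2]; exact v5, Or.inr hq⟩, ?_, ?_, ?_⟩
  · show S'.E.erase q ∪ T'.E.erase q = S.E.erase q ∪ T.E.erase q
    rw [g2, k2]
  · show S'.rk + T'.rk - 1 = S.rk + T.rk - 1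
    rw [g3, k3]
  · rw [Finset.ssubset_iff_of_subset (tsum_mono g4.1 k4.1)]
    obtain ⟨J, hJ, hJ'⟩ : ∃ J ∈ S.M, J ∉ S'.M := by
      rcases hq with hq | hq
      · obtain ⟨J, hJ, hqJ⟩ := hS.1
        exact ⟨J, hJ, fun h => hq.1 J h hqJ⟩
      · obtain ⟨J, hJ, hqJ⟩ := hS.2
        exact ⟨J, hJ, fun h => hqJ (hq.1 J h)⟩
    obtain ⟨K, hK, hx⟩ := partner (Net.wf' T v2).nonempty v6 hJ
    refine ⟨(J ∪ K).erase q, tsum_M _ |>.mpr ⟨J, hJ, K, hK, hx, rfl⟩, ?_⟩
    rw [tsum_M]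
    rintro ⟨J1, hJ1, K1, hK1, hx1, e⟩
    have := (tsum_pair (valid_sub v1) (valid_sub v2) g4.1 k4.1
      (Net.wf' S v1).card v5 hJ hK hJ1 hK1 hx hx1 e).1
    exact hJ' (this ▸ hJ1)

theorem nfac (hvtx : VtxGStmt) : FacetStmt := by
  intro S S' hV hF
  suffices h : Good S S' from h
  induction hF with
  | black l x hx hl => exact good_black l x hx hl
  | white l x hx hl => exact good_white l x hx hl
  | gen L A R ρ q d r SA SB hq hA hB => exact good_gen hvtx L A R ρ q d r SA SB hq hA hB hV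
  | dsumL S T S' h ih => exact good_dsumL hV (ih hV.1)
  | dsumR S T T' h ih => exact good_dsumR hV (ih hV.2.1)
  | tsumL S T S' q hq h ih => exact good_tsumL hV (ih hV.1) hq
  | tsumR S T T' q hq h ih => exact good_tsumR hV (ih hV.2.1) hq
  | tsumB S T S' T' q hS hT hq h h' ih ih' => exact good_tsumB hV hS hT hq (ih hV.1) (ih' hV.2.1)

end ABCT.H38
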