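import Pool.Agent.Helper32_ABCT.Stmts2
import Pool.Agent.Helper38_ABCT.Nfac

/-!
# LTS: the chart lattice of a 2-sum (MP_a17fcb_ag)
-/

open MvPolynomial

namespace ABCT.H38

open FlatCell

theorem zexp_add {W : Type*} (a b : W →₀ ℕ) : zexp (a + b) = zexp a + zexp b := by
  ext w; simp [zexp]

theorem zexp_single {W : Type*} (w : W) (n : ℕ) :
    zexp (Finsupp.single w n) = Finsupp.single w (n : ℤ) := by
  rw [zexp, Finsupp.mapRange_single]

theorem zexp_apply {W : Type*} (a : W →₀ ℕ) (w : W) : zexp a w = (a w : ℤ) := by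
  simp [zexp]

theorem zexp_mapDomain {W W' : Type*} (f : W → W') (a : W →₀ ℕ) :
    zexp (a.mapDomain f) = (zexp a).mapDomain f := by
  have h1 := Finsupp.mapDomain_mapRange (f := f) a (fun n : ℕ => (n : ℤ)) (by simp)
    (fun x y => by simp)
  exact h1.symm

/-- the exponent of a label variable -/
theorem pol_label (S : FlatCell) (J : Finset ℕ) (a : S.V →₀ ℕ) (ha : a ∈ (S.pol J).support)
    (i : ℕ) : a (Sum.inl i) = if i ∈ J then 1 else 0 := by
  classical
  rw [FlatCell.pol, natpoly_support_mul] at ha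
  obtain ⟨b, hb, c, hc, rfl⟩ := ha
  rw [support_rename_of_injective Sum.inr_injective, Finset.mem_image] at hc
  obtain ⟨c', -, rfl⟩ := hc
  have h1 : (c'.mapDomain Sum.inr : S.V →₀ ℕ) (Sum.inl i) = 0 := by
    apply Finsupp.mapDomain_of_notMem_range
    rintro ⟨x, hx⟩
    simp at hx
  have h2 : (∏ i ∈ J, (X (Sum.inl i) : MvPolynomial S.V ℕ)) =
      monomial (∑ i ∈ J, Finsupp.single (Sum.inl i) 1) 1 := by
    rw [monomial_sum_one]; rfl
  rw [h2, support_monomial, if_neg one_ne_zero, Finset.mem_singleton] at hb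
  rw [Finsupp.add_apply, h1, add_zero, hb, Finsupp.finsetSum_apply]
  simp only [Finsupp.single_apply, Sum.inl.injEq]
  rw [Finset.sum_ite_eq']

theorem lam_label_alive {S : FlatCell} {q : ℕ} (h : (∀ I ∈ S.M, q ∈ I) ∨ (∀ I ∈ S.M, q ∉ I))
    {a : S.V →₀ ℤ} (ha : a ∈ S.Lam) : a (Sum.inl q) = 0 := by
  rw [FlatCell.Lam] at ha
  induction ha using AddSubgroup.closure_induction with
  | mem x hx =>
    obtain ⟨I, hI, J, hJ, μ, hμ, ν, hν, rfl⟩ := hx
    rw [Finsupp.sub_apply, zexp_apply, zexp_apply, pol_label S I μ hμ, pol_label S J ν hν]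
    rcases h with h | h
    · simp [h I hI, h J hJ]
    · simp [h I hI, h J hJ]
  | zero => simp
  | add x y _ _ hx hy => rw [Finsupp.add_apply, hx, hy, add_zero]
  | neg x _ hx => rw [Finsupp.neg_apply, hx, neg_zero]

variable {S T : Net} {q : ℕ}

/-- the difference of two lifted pairs of exponents -/
theorem diff_mem (hV : (Net.tsum S T q).Valid) {J K J' K' : Finset ℕ} (hJ : J ∈ S.M)
    (hK : K ∈ T.M) (hJ' : J' ∈ S.M) (hK' : K' ∈ T.M) (hx : Xq q J K) (hx' : Xq q J' K')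
    {α α' : S.flat.V →₀ ℕ} {β β' : T.flat.V →₀ ℕ} (hα : α ∈ (S.flat.pol J).support)
    (hβ : β ∈ (T.flat.pol K).support) (hα' : α' ∈ (S.flat.pol J').support)
    (hβ' : β' ∈ (T.flat.pol K').support) :
    (zexp α).mapDomain (vtL S T q) + (zexp β).mapDomain (vtR S T q) -
      ((zexp α').mapDomain (vtL S T q) + (zexp β').mapDomain (vtR S T q)) ∈
      (Net.tsum S T q).flat.Lam := by
  classical
  have aux : ∀ (J K : Finset ℕ) (hJ : J ∈ S.M) (hK : K ∈ T.M) (hx : Xq q J K)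
      (α : S.flat.V →₀ ℕ) (β : T.flat.V →₀ ℕ) (hα : α ∈ (S.flat.pol J).support)
      (hβ : β ∈ (T.flat.pol K).support), ∃ μ : (Net.tsum S T q).flat.V →₀ ℕ,
      μ ∈ ((Net.tsum S T q).flat.pol ((J ∪ K).erase q)).support ∧
      zexp μ + Finsupp.single (Sum.inl q) 1 =
        (zexp α).mapDomain (vtL S T q) + (zexp β).mapDomain (vtR S T q) := by
    intro J K hJ hK hx α β hα hβ
    have hle : Finsupp.single (Sum.inl q) 1 ≤ α.mapDomain (vtL S T q) + β.mapDomain (vtR S T q) := by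
      rw [Finsupp.single_le_iff, Finsupp.add_apply]
      have e1 : (α.mapDomain (vtL S T q) : (Net.tsum S T q).flat.V →₀ ℕ) (Sum.inl q) =
          α (Sum.inl q) := Finsupp.mapDomain_apply (vtL S T q).injective α (Sum.inl q)
      have e2 : (β.mapDomain (vtR S T q) : (Net.tsum S T q).flat.V →₀ ℕ) (Sum.inl q) =
          β (Sum.inl q) := Finsupp.mapDomain_apply (vtR S T q).injective β (Sum.inl q)
      rw [e1, e2, pol_label _ J α hα, pol_label _ K β hβ]
      rcases hx with h | h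
      · simp [h.1]
      · simp [h.2]
    refine ⟨α.mapDomain (vtL S T q) + β.mapDomain (vtR S T q) - Finsupp.single (Sum.inl q) 1,
      ?_, ?_⟩
    · rw [tsum_exp hV J K hJ hK hx]
      exact ⟨α, hα, β, hβ, tsub_add_cancel_of_le hle⟩
    · have := tsub_add_cancel_of_le hle
      have h2 := congrArg zexp this
      rw [zexp_add, zexp_single, zexp_add, zexp_mapDomain, zexp_mapDomain] at h2
      exact_mod_cast h2
  obtain ⟨μ, hμ, e1⟩ := aux J K hJ hK hx α β hα hβ
  obtain ⟨ν, hν, e2⟩ := aux J' K' hJ' hK' hx' α' β' hα' hβ'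
  rw [← e1, ← e2, add_sub_add_right_eq_sub]
  exact AddSubgroup.subset_closure ⟨_, tsum_M _ |>.mpr ⟨J, hJ, K, hK, hx, rfl⟩, _,
    tsum_M _ |>.mpr ⟨J', hJ', K', hK', hx', rfl⟩, μ, hμ, ν, hν, rfl⟩

theorem exists_exp {S : Net} (hS : S.Valid) {J : Finset ℕ} (hJ : J ∈ S.M) :
    ∃ a, a ∈ (S.flat.pol J).support := by
  have h1 : S.Δ J ≠ 0 := ((Net.wf' S hS).ne J).mpr hJ
  have h2 : S.flat.pol J ≠ 0 := by
    rw [FlatCell.pol, natpoly_mul_ne_zero_iff, natpoly_rename_ne_zero]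
    refine ⟨natpoly_prod_ne_zero _ _ fun i _ => X_ne_zero _, h1⟩
  exact support_nonempty.mpr h2

/-- partners for the elements of `S.Lam` -/
theorem left_mem (hV : (Net.tsum S T q).Valid) {β₀ β₁ : T.flat.V →₀ ℕ}
    (h : ∀ J ∈ S.M, (q ∈ J → ∃ K ∈ T.M, q ∉ K ∧ β₀ ∈ (T.flat.pol K).support) ∧
      (q ∉ J → ∃ K ∈ T.M, q ∈ K ∧ β₁ ∈ (T.flat.pol K).support))
    {a : S.flat.V →₀ ℤ} (ha : a ∈ S.flat.Lam) :
    a.mapDomain (vtL S T q) + a (Sum.inl q) •
      ((zexp β₀).mapDomain (vtR S T q) - (zexp β₁).mapDomain (vtR S T q)) ∈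
      (Net.tsum S T q).flat.Lam := by
  classical
  rw [FlatCell.Lam] at ha
  induction ha using AddSubgroup.closure_induction with
  | mem x hx =>
    obtain ⟨I, hI, J, hJ, μ, hμ, ν, hν, rfl⟩ := hx
    have key : ∀ I ∈ S.M, ∃ K ∈ T.M, Xq q I K ∧
        (if q ∈ I then β₀ else β₁) ∈ (T.flat.pol K).support := by
      intro I hI
      by_cases hq : q ∈ I
      · obtain ⟨K, hK, h1, h2⟩ := (h I hI).1 hq
        exact ⟨K, hK, Or.inl ⟨hq, h1⟩, by rw [if_pos hq]; exact h2⟩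
      · obtain ⟨K, hK, h1, h2⟩ := (h I hI).2 hq
        exact ⟨K, hK, Or.inr ⟨hq, h1⟩, by rw [if_neg hq]; exact h2⟩
    obtain ⟨K1, hK1, x1, y1⟩ := key I hI
    obtain ⟨K2, hK2, x2, y2⟩ := key J hJ
    have := diff_mem hV hI hK1 hJ hK2 x1 x2 hμ y1 hν y2
    convert this using 1
    have hsub : (zexp μ - zexp ν).mapDomain (vtL S T q) =
        (zexp μ).mapDomain (vtL S T q) - (zexp ν).mapDomain (vtL S T q) := by
      rw [sub_eq_add_neg, Finsupp.mapDomain_add, sub_eq_add_neg]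
      congr 1
      exact map_neg (Finsupp.mapDomain.addMonoidHom (vtL S T q)) _
    rw [hsub, Finsupp.sub_apply, zexp_apply, zexp_apply, pol_label _ I μ hμ, pol_label _ J ν hν]
    by_cases h1 : q ∈ I <;> by_cases h2 : q ∈ J <;> simp [h1, h2] <;> abel
  | zero => simp
  | add x y _ _ hx hy =>
    rw [Finsupp.mapDomain_add, Finsupp.add_apply, add_smul]
    have := add_mem hx hy
    convert this using 1
    abel
  | neg x _ hx =>
    have := neg_mem hx
    convert this using 1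
    have hneg : (-x).mapDomain (vtL S T q) = - (x.mapDomain (vtL S T q)) :=
      map_neg (Finsupp.mapDomain.addMonoidHom (vtL S T q)) _
    rw [hneg, Finsupp.neg_apply, neg_smul, neg_add]

theorem right_mem (hV : (Net.tsum S T q).Valid) {α₀ α₁ : S.flat.V →₀ ℕ}
    (h : ∀ K ∈ T.M, (q ∈ K → ∃ J ∈ S.M, q ∉ J ∧ α₀ ∈ (S.flat.pol J).support) ∧
      (q ∉ K → ∃ J ∈ S.M, q ∈ J ∧ α₁ ∈ (S.flat.pol J).support))
    {b : T.flat.V →₀ ℤ} (hb : b ∈ T.flat.Lam) :
    b.mapDomain (vtR S T q) + b (Sum.inl q) •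
      ((zexp α₀).mapDomain (vtL S T q) - (zexp α₁).mapDomain (vtL S T q)) ∈
      (Net.tsum S T q).flat.Lam := by
  classical
  rw [FlatCell.Lam] at hb
  induction hb using AddSubgroup.closure_induction with
  | mem x hx =>
    obtain ⟨I, hI, J, hJ, μ, hμ, ν, hν, rfl⟩ := hx
    have key : ∀ I ∈ T.M, ∃ K ∈ S.M, Xq q K I ∧
        (if q ∈ I then α₀ else α₁) ∈ (S.flat.pol K).support := by
      intro I hI
      by_cases hq : q ∈ I
      · obtain ⟨K, hK, h1, h2⟩ := (h I hI).1 hq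
        exact ⟨K, hK, Or.inr ⟨h1, hq⟩, by rw [if_pos hq]; exact h2⟩
      · obtain ⟨K, hK, h1, h2⟩ := (h I hI).2 hq
        exact ⟨K, hK, Or.inl ⟨h1, hq⟩, by rw [if_neg hq]; exact h2⟩
    obtain ⟨K1, hK1, x1, y1⟩ := key I hI
    obtain ⟨K2, hK2, x2, y2⟩ := key J hJ
    have := diff_mem hV hK1 hI hK2 hJ x1 x2 y1 hμ y2 hν
    convert this using 1
    have hsub : (zexp μ - zexp ν).mapDomain (vtR S T q) =
        (zexp μ).mapDomain (vtR S T q) - (zexp ν).mapDomain (vtR S T q) := by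
      rw [sub_eq_add_neg, Finsupp.mapDomain_add, sub_eq_add_neg]
      congr 1
      exact map_neg (Finsupp.mapDomain.addMonoidHom (vtR S T q)) _
    rw [hsub, Finsupp.sub_apply, zexp_apply, zexp_apply, pol_label _ I μ hμ, pol_label _ J ν hν]
    by_cases h1 : q ∈ I <;> by_cases h2 : q ∈ J <;> simp [h1, h2] <;> abel
  | zero => simp
  | add x y _ _ hx hy =>
    rw [Finsupp.mapDomain_add, Finsupp.add_apply, add_smul]
    have := add_mem hx hy
    convert this using 1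
    abel
  | neg x _ hx =>
    have := neg_mem hx
    convert this using 1
    have hneg : (-x).mapDomain (vtR S T q) = - (x.mapDomain (vtR S T q)) :=
      map_neg (Finsupp.mapDomain.addMonoidHom (vtR S T q)) _
    rw [hneg, Finsupp.neg_apply, neg_smul, neg_add]

/-- LTS -/
theorem lts : LtsStmt := by
  classical
  intro S T q hV m
  have hV' := hV
  obtain ⟨v1, v2, r1, r2, v3, v4, v5, v6⟩ := hV'
  constructor
  · intro hm
    rw [FlatCell.Lam] at hm
    induction hm using AddSubgroup.closure_induction with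
    | mem x hx =>
      obtain ⟨I, hI, I', hI', μ, hμ, ν, hν, rfl⟩ := hx
      obtain ⟨J, hJ, K, hK, hx, rfl⟩ := tsum_M _ |>.mp hI
      obtain ⟨J', hJ', K', hK', hx', rfl⟩ := tsum_M _ |>.mp hI'
      obtain ⟨a, ha, b, hb, e⟩ := (tsum_exp hV J K hJ hK hx μ).mp hμ
      obtain ⟨a', ha', b', hb', e'⟩ := (tsum_exp hV J' K' hJ' hK' hx' ν).mp hν
      refine ⟨zexp a - zexp a', AddSubgroup.subset_closure ⟨J, hJ, J', hJ', a, ha, a', ha', rfl⟩,
        zexp b - zexp b', AddSubgroup.subset_closure ⟨K, hK, K', hK', b, hb, b', hb', rfl⟩, ?_, ?_⟩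
      · rw [Finsupp.sub_apply, Finsupp.sub_apply, zexp_apply, zexp_apply, zexp_apply, zexp_apply,
          pol_label _ J a ha, pol_label _ J' a' ha', pol_label _ K b hb, pol_label _ K' b' hb']
        rcases hx with h | h <;> rcases hx' with h' | h' <;> simp [h.1, h.2, h'.1, h'.2]
      · have z1 := congrArg zexp e
        have z2 := congrArg zexp e'
        rw [zexp_add, zexp_single, zexp_add, zexp_mapDomain, zexp_mapDomain] at z1 z2
        have hsub : ∀ (x y : S.flat.V →₀ ℤ), (x - y).mapDomain (vtL S T q) =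
            x.mapDomain (vtL S T q) - y.mapDomain (vtL S T q) :=
          fun x y => map_sub (Finsupp.mapDomain.addMonoidHom (vtL S T q)) x y
        have hsub' : ∀ (x y : T.flat.V →₀ ℤ), (x - y).mapDomain (vtR S T q) =
            x.mapDomain (vtR S T q) - y.mapDomain (vtR S T q) :=
          fun x y => map_sub (Finsupp.mapDomain.addMonoidHom (vtR S T q)) x y
        rw [hsub, hsub']
        rw [← add_sub_add_right_eq_sub (zexp μ) (zexp ν) (Finsupp.single (Sum.inl q) ((1:ℕ):ℤ)),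
          z1, z2]
        abel
    | zero => exact ⟨0, zero_mem _, 0, zero_mem _, by simp, by simp⟩
    | add x y _ _ hx hy =>
      obtain ⟨a, ha, b, hb, e1, rfl⟩ := hx
      obtain ⟨a', ha', b', hb', e1', rfl⟩ := hy
      refine ⟨a + a', add_mem ha ha', b + b', add_mem hb hb', ?_, ?_⟩
      · rw [Finsupp.add_apply, Finsupp.add_apply]; linarith
      · rw [Finsupp.mapDomain_add, Finsupp.mapDomain_add]; abel
    | neg x _ hx =>
      obtain ⟨a, ha, b, hb, e1, rfl⟩ := hx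
      refine ⟨-a, neg_mem ha, -b, neg_mem hb, ?_, ?_⟩
      · rw [Finsupp.neg_apply, Finsupp.neg_apply]; linarith
      · have h1 : (-a).mapDomain (vtL S T q) = - (a.mapDomain (vtL S T q)) :=
          map_neg (Finsupp.mapDomain.addMonoidHom (vtL S T q)) _
        have h2 : (-b).mapDomain (vtR S T q) = - (b.mapDomain (vtR S T q)) :=
          map_neg (Finsupp.mapDomain.addMonoidHom (vtR S T q)) _
        rw [h1, h2, neg_add]
  · rintro ⟨a, ha, b, hb, hab, rfl⟩
    have wS := Net.wf' S v1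
    have wT := Net.wf' T v2
    rcases v6 with ⟨hS, hT⟩ | hdead
    · obtain ⟨⟨J1, hJ1, qJ1⟩, ⟨J0, hJ0, qJ0⟩⟩ := hS
      obtain ⟨⟨K1, hK1, qK1⟩, ⟨K0, hK0, qK0⟩⟩ := hT
      obtain ⟨α₁, hα₁⟩ := exists_exp v1 hJ1
      obtain ⟨α₀, hα₀⟩ := exists_exp v1 hJ0
      obtain ⟨β₁, hβ₁⟩ := exists_exp v2 hK1
      obtain ⟨β₀, hβ₀⟩ := exists_exp v2 hK0
      have h1 := left_mem hV (β₀ := β₀) (β₁ := β₁)
        (fun J _ => ⟨fun _ => ⟨K0, hK0, qK0, hβ₀⟩, fun _ => ⟨K1, hK1, qK1, hβ₁⟩⟩) ha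
      have h2 := right_mem hV (α₀ := α₀) (α₁ := α₁)
        (fun K _ => ⟨fun _ => ⟨J0, hJ0, qJ0, hα₀⟩, fun _ => ⟨J1, hJ1, qJ1, hα₁⟩⟩) hb
      have h3 := diff_mem hV hJ0 hK1 hJ1 hK0 (Or.inr ⟨qJ0, qK1⟩) (Or.inl ⟨qJ1, qK0⟩) hα₀ hβ₁ hα₁ hβ₀
      have h4 := add_mem (add_mem h1 h2) (zsmul_mem h3 (a (Sum.inl q)))
      convert h4 using 1
      have : b (Sum.inl q) = - a (Sum.inl q) := by linarith
      rw [this]
      generalize a (Sum.inl q) = n
      module
    · have hdS : (∀ I ∈ S.flat.M, q ∈ I) ∨ (∀ I ∈ S.flat.M, q ∉ I) := by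
        rcases hdead with h | h
        · exact Or.inr h.1
        · exact Or.inl h.1
      have hdT : (∀ I ∈ T.flat.M, q ∈ I) ∨ (∀ I ∈ T.flat.M, q ∉ I) := by
        rcases hdead with h | h
        · exact Or.inl h.2
        · exact Or.inr h.2
      have a0 := lam_label_alive hdS ha
      have b0 := lam_label_alive hdT hb
      obtain ⟨J, hJ⟩ := wS.nonempty
      obtain ⟨K, hK⟩ := wT.nonempty
      obtain ⟨α, hα⟩ := exists_exp v1 hJ
      obtain ⟨β, hβ⟩ := exists_exp v2 hK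
      have h1 := left_mem hV (β₀ := β) (β₁ := β) (fun J' hJ' => by
        rcases hdead with h | h
        · exact ⟨fun hq => absurd hq (h.1 J' hJ'), fun _ => ⟨K, hK, h.2 K hK, hβ⟩⟩
        · exact ⟨fun _ => ⟨K, hK, h.2 K hK, hβ⟩, fun hq => absurd (h.1 J' hJ') hq⟩) ha
      have h2 := right_mem hV (α₀ := α) (α₁ := α) (fun K' hK' => by
        rcases hdead with h | h
        · exact ⟨fun _ => ⟨J, hJ, h.1 J hJ, hα⟩, fun hq => absurd (h.2 K' hK') hq⟩
        · exact ⟨fun hq => absurd hq (h.2 K' hK'), fun _ => ⟨J, hJ, h.1 J hJ, hα⟩⟩) hb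
      rw [a0, zero_smul, add_zero] at h1
      rw [b0, zero_smul, add_zero] at h2
      exact add_mem h1 h2

end ABCT.H38
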